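import Pool.Agent.H98.RFZ.Targets

/-!
# Row PCUT of rfz_modules: upper bound for the tension without short paths (helper79)
-/

set_option autoImplicit false

noncomputable section

open Finset
open Pool.Agent.H98.RFC Pool.Agent.H98.RFZ

namespace Pool.Agent.H79.RFZ

/-! ### pigeonhole -/

open Classical in
lemma pigeon {α : Type*} (F : Finset α) (N : ℕ) (hN : 1 ≤ N) (P : ℕ → α → Prop)
    (hdis : ∀ j j' x, j < j' → P j x → P j' x → False) :
    ∃ j, 1 ≤ j ∧ j ≤ N ∧ N * (F.filter (P j)).card ≤ F.card := by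
  by_contra hcon
  push Not at hcon
  have h1 : ∑ j ∈ Icc 1 N, F.card < ∑ j ∈ Icc 1 N, N * (F.filter (P j)).card := by
    refine sum_lt_sum_of_nonempty ⟨1, mem_Icc.2 ⟨le_refl 1, hN⟩⟩ fun j hj => ?_
    rw [mem_Icc] at hj
    exact hcon j hj.1 hj.2
  have h2 : ∑ j ∈ Icc 1 N, (F.filter (P j)).card ≤ F.card := by
    rw [← card_biUnion]
    · refine card_le_card ?_
      intro x hx
      rw [mem_biUnion] at hx
      obtain ⟨j, -, hj⟩ := hx
      exact (mem_filter.1 hj).1
    · intro j _ j' _ hne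
      rw [Function.onFun, Finset.disjoint_left]
      intro x hx hx'
      have h3 := (mem_filter.1 hx).2
      have h4 := (mem_filter.1 hx').2
      rcases lt_or_gt_of_ne hne with h | h
      · exact hdis j j' x h h3 h4
      · exact hdis j' j x h h4 h3
  rw [← mul_sum, sum_const, Nat.card_Icc, smul_eq_mul] at h1
  have h3 : N + 1 - 1 = N := by omega
  rw [h3] at h1
  exact absurd (lt_of_mul_lt_mul_left h1 (Nat.zero_le N)) (by omega)

/-! ### geometry -/

lemma nrm_nonneg (p : Site) : 0 ≤ nrm p := Real.sqrt_nonneg _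

lemma abs_le_nrm (p : Site) : |(p.1 : ℝ)| ≤ nrm p ∧ |(p.2 : ℝ)| ≤ nrm p := by
  unfold nrm nsq
  constructor
  · refine Real.abs_le_sqrt ?_
    push_cast
    nlinarith [sq_nonneg (p.2 : ℝ)]
  · refine Real.abs_le_sqrt ?_
    push_cast
    nlinarith [sq_nonneg (p.1 : ℝ)]

lemma mem_box {R : ℕ} {z : Site} (hz : z ∈ box R) : |(z.1 : ℝ)| ≤ R ∧ |(z.2 : ℝ)| ≤ R := by
  unfold Pool.Agent.H98.RFC.box at hz
  rw [mem_product, mem_Icc, mem_Icc] at hz
  obtain ⟨⟨h1, h2⟩, h3, h4⟩ := hz
  rw [abs_le, abs_le]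
  exact ⟨⟨by exact_mod_cast h1, by exact_mod_cast h2⟩, by exact_mod_cast h3, by exact_mod_cast h4⟩

lemma bil (R : ℕ) (u v x y n : ℝ) (hu : |u| ≤ n) (hv : |v| ≤ n) (hx : |x| ≤ R) (hy : |y| ≤ R) :
    |u * x + v * y| ≤ 2 * R * n := by
  have hn : 0 ≤ n := (abs_nonneg u).trans hu
  calc |u * x + v * y| ≤ |u * x| + |v * y| := abs_add_le _ _
    _ = |u| * |x| + |v| * |y| := by rw [abs_mul, abs_mul]
    _ ≤ n * R + n * R := by
        gcongr
    _ = 2 * R * n := by ring

lemma gdot_diff {R : ℕ} (p a b : Site) (h : a - b ∈ box R) :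
    |(gdot p a : ℝ)| ≤ |(gdot p b : ℝ)| + 2 * R * nrm p ∧
    |(gdot p b : ℝ)| ≤ |(gdot p a : ℝ)| + 2 * R * nrm p := by
  obtain ⟨h1, h2⟩ := mem_box h
  obtain ⟨h3, h4⟩ := abs_le_nrm p
  have h5 := bil R p.1 p.2 ((a - b).1 : ℝ) ((a - b).2 : ℝ) (nrm p) h3 h4 h1 h2
  have h6 : ((p.1 : ℝ) * ((a - b).1 : ℝ) + p.2 * ((a - b).2 : ℝ)) =
      (gdot p a : ℝ) - (gdot p b : ℝ) := by
    unfold gdot
    rw [Prod.fst_sub, Prod.snd_sub]
    push_cast
    ring
  rw [h6] at h5
  constructor
  · have := abs_sub_abs_le_abs_sub (gdot p a : ℝ) (gdot p b : ℝ)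
    linarith
  · have := abs_sub_abs_le_abs_sub (gdot p b : ℝ) (gdot p a : ℝ)
    rw [abs_sub_comm] at this
    linarith

lemma fdet_diff {R : ℕ} (p a b : Site) (h : a - b ∈ box R) :
    |(fdet p a : ℝ)| ≤ |(fdet p b : ℝ)| + 2 * R * nrm p ∧
    |(fdet p b : ℝ)| ≤ |(fdet p a : ℝ)| + 2 * R * nrm p := by
  obtain ⟨h1, h2⟩ := mem_box h
  obtain ⟨h3, h4⟩ := abs_le_nrm p
  have h4' : |(-(p.2 : ℝ))| ≤ nrm p := by rwa [abs_neg]
  have h5 := bil R p.1 (-(p.2 : ℝ)) ((a - b).2 : ℝ) ((a - b).1 : ℝ) (nrm p) h3 h4' h2 h1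
  have h6 : ((p.1 : ℝ) * ((a - b).2 : ℝ) + -(p.2 : ℝ) * ((a - b).1 : ℝ)) =
      (fdet p a : ℝ) - (fdet p b : ℝ) := by
    unfold fdet
    rw [Prod.fst_sub, Prod.snd_sub]
    push_cast
    ring
  rw [h6] at h5
  constructor
  · have := abs_sub_abs_le_abs_sub (fdet p a : ℝ) (fdet p b : ℝ)
    linarith
  · have := abs_sub_abs_le_abs_sub (fdet p b : ℝ) (fdet p a : ℝ)
    rw [abs_sub_comm] at this
    linarith

lemma nrm_pos {p : Site} (hp : p ≠ 0) : 0 < nrm p := by
  rcases (nrm_nonneg p).eq_or_lt with h | h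
  · exfalso
    obtain ⟨h1, h2⟩ := abs_le_nrm p
    rw [← h] at h1 h2
    have e1 : (p.1 : ℝ) = 0 := abs_eq_zero.1 (le_antisymm h1 (abs_nonneg _))
    have e2 : (p.2 : ℝ) = 0 := abs_eq_zero.1 (le_antisymm h2 (abs_nonneg _))
    refine hp (Prod.ext ?_ ?_)
    · exact_mod_cast e1
    · exact_mod_cast e2
  · exact h

/-! ### total coupling -/

lemma sum_J_le (R : ℕ) (J : Site → ℝ) (hJ : IsCoupling R J) (a : Site) (S : Finset Site) :
    ∑ b ∈ S, J (a - b) ≤ Jt R J := by
  classical
  unfold Jt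
  have hinj : Set.InjOn (fun b : Site => a - b) (S : Set Site) := by
    intro b _ b' _ h
    simpa using h
  have h1 : ∑ b ∈ S, J (a - b) = ∑ z ∈ S.image (fun b => a - b), J z := (sum_image hinj).symm
  rw [h1]
  have h2 : ∑ z ∈ S.image (fun b => a - b), J z =
      ∑ z ∈ (S.image (fun b => a - b)).filter (fun z => z ∈ box R), J z := by
    rw [sum_filter]
    refine sum_congr rfl fun z _ => ?_
    split_ifs with h
    · rfl
    · exact hJ.range z h
  rw [h2]
  refine sum_le_sum_of_subset_of_nonneg ?_ fun z _ _ => hJ.nonneg z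
  intro z hz
  exact (mem_filter.1 hz).2

lemma Jt_nonneg (R : ℕ) (J : Site → ℝ) (hJ : IsCoupling R J) : 0 ≤ Jt R J :=
  sum_nonneg fun z _ => hJ.nonneg z

/-! ### reachable sets -/

open Classical in
/-- the part of `D` in the strip -/
def Dp (D : Finset Site) (p : Site) (g : ℝ) : Finset Site :=
  D.filter fun x => |(gdot p x : ℝ)| ≤ g

open Classical in
/-- the sites of the strip which are reached in at most `k` steps -/
def Rk (J : Site → ℝ) (D : Finset Site) (p : Site) (g f : ℝ) : ℕ → Finset Site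
  | 0 => (Dp D p g).filter fun x => |(fdet p x : ℝ)| ≤ f
  | k + 1 => Rk J D p g f k ∪ (Dp D p g).filter fun x => ∃ y ∈ Rk J D p g f k, 0 < J (x - y)

section
variable {J : Site → ℝ} {D : Finset Site} {p : Site} {g f : ℝ}

lemma Rk_sub : ∀ k, Rk J D p g f k ⊆ Dp D p g := by
  classical
  intro k
  induction k with
  | zero => exact filter_subset _ _
  | succ k ih => exact union_subset ih (filter_subset _ _)

lemma Rk_mono {k l : ℕ} (h : k ≤ l) : Rk J D p g f k ⊆ Rk J D p g f l := by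
  classical
  induction l, h using Nat.le_induction with
  | base => exact Subset.refl _
  | succ l _ ih => exact ih.trans subset_union_left

lemma Rk_step {k : ℕ} {x y : Site} (hx : x ∈ Dp D p g) (hy : y ∈ Rk J D p g f k)
    (h : 0 < J (x - y)) : x ∈ Rk J D p g f (k + 1) := by
  classical
  unfold Rk
  exact mem_union_right _ (mem_filter.2 ⟨hx, y, hy, h⟩)

lemma Rk_path : ∀ (k : ℕ) (x : Site), x ∈ Rk J D p g f k → ∃ (k' : ℕ) (y : ℕ → Site), k' ≤ k ∧
    IsPath J D k' y ∧ (∀ i, i ≤ k' → |(gdot p (y i) : ℝ)| ≤ g) ∧ |(fdet p (y 0) : ℝ)| ≤ f ∧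
    y k' = x := by
  classical
  intro k
  induction k with
  | zero =>
    intro x hx
    unfold Rk Dp at hx
    rw [mem_filter, mem_filter] at hx
    refine ⟨0, fun _ => x, le_refl 0, ⟨fun i _ => hx.1.1, fun i hi => absurd hi (by omega)⟩,
      fun i _ => hx.1.2, hx.2, rfl⟩
  | succ k ih =>
    intro x hx
    unfold Rk at hx
    rw [mem_union] at hx
    rcases hx with hx | hx
    · obtain ⟨k', y, h1, h2⟩ := ih x hx
      exact ⟨k', y, by omega, h2⟩
    · rw [mem_filter] at hx
      obtain ⟨hxD, z, hz, hJ⟩ := hx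
      unfold Dp at hxD
      rw [mem_filter] at hxD
      obtain ⟨k', y, h1, h2, h3, h4, h5⟩ := ih z hz
      refine ⟨k' + 1, fun i => if i ≤ k' then y i else x, by omega, ⟨?_, ?_⟩, ?_, ?_, ?_⟩
      · intro i _
        simp only
        split_ifs with h
        · exact h2.1 i h
        · exact hxD.1
      · intro i hi
        simp only
        rcases Nat.lt_or_ge i k' with h | h
        · rw [if_pos (by omega), if_pos (by omega)]
          exact h2.2 i h
        · have : i = k' := by omega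
          subst this
          rw [if_neg (by omega), if_pos (le_refl _), h5]
          exact hJ
      · intro i _
        simp only
        split_ifs with h
        · exact h3 i h
        · exact hxD.2
      · simp only
        rw [if_pos (Nat.zero_le _)]
        exact h4
      · simp only
        rw [if_neg (by omega)]

end

/-! ### one cut -/

open Classical in
/-- the annulus part -/
def Fs (D : Finset Site) (p : Site) (K w : ℝ) : Finset Site :=
  D.filter fun x => |(fdet p x : ℝ)| ≤ 3 * w * nrm p ∧ |(gdot p x : ℝ)| ≤ 3 * K * w * nrm p ∧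
    (2 * w * nrm p < |(fdet p x : ℝ)| ∨ 3 / 2 * K * w * nrm p < |(gdot p x : ℝ)|)

open Classical in
lemma one_cut (hZ : Z_CUT) (hRCT : P_RCT) (R : ℕ) (J : Site → ℝ) (hJ : IsCoupling R J)
    (h : Site → ℝ) (p : Site) (K w : ℝ) (hp : p ≠ 0) (hK : 1 ≤ K) (hw : (20 * R + 20 : ℝ) ≤ w)
    (hSP : ¬ SP R J h p K w) (D : Finset Site) (hD : D = Ds R J h (rect p K (4 * w) \ rect p K w))
    (k : ℕ) (hk1 : 1 ≤ k) (hk : (k : ℝ) < K * w) (G : ℝ) (hG1 : 2 * K * w * nrm p ≤ G)
    (hG2 : G ≤ 3 * K * w * nrm p) :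
    ten R J h (rect p K w) (rect p K (4 * w)) ≤ 4 * Jt R J *
      (((Fs D p K w).filter fun x => G - 2 * R * nrm p < |(gdot p x : ℝ)| ∧
          |(gdot p x : ℝ)| ≤ G).card +
        ((Fs D p K w).filter fun x => x ∈ Rk J D p (3 * K * w * nrm p) (2 * w * nrm p) k ∧
          x ∉ Rk J D p (3 * K * w * nrm p) (2 * w * nrm p) (k - 1)).card : ℝ) := by
  have hn := nrm_pos hp
  have hR0 : (0 : ℝ) ≤ R := Nat.cast_nonneg R
  have hw0 : 0 < w := by linarith
  have hw4 : (0 : ℝ) ≤ 4 * w := by linarith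
  set n := nrm p with hn'
  set V := rect p K w with hV
  set Λ := rect p K (4 * w) with hΛ
  set RR := Rk J D p (3 * K * w * n) (2 * w * n) with hRR
  have hVm : ∀ x, x ∈ V ↔ |(fdet p x : ℝ)| ≤ w * n ∧ |(gdot p x : ℝ)| ≤ K * w * n :=
    (hRCT p K w hp hK hw0.le).1
  have hΛm : ∀ x, x ∈ Λ ↔ |(fdet p x : ℝ)| ≤ 4 * w * n ∧ |(gdot p x : ℝ)| ≤ K * (4 * w) * n :=
    (hRCT p K (4 * w) hp hK hw4).1
  have hDΛ : D ⊆ Λ \ V := by
    rw [hD]
    unfold Ds
    refine sdiff_subset.trans ?_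
    unfold gp
    exact filter_subset _ _
  -- arithmetic facts
  have hwn : 0 < w * n := mul_pos hw0 hn
  have hKwn : w * n ≤ K * w * n := by nlinarith
  have hRn : 20 * (R * n) ≤ w * n := by nlinarith
  have hRn0 : 0 ≤ R * n := mul_nonneg hR0 hn.le
  -- no short path
  have hfar : ∀ x ∈ RR k, |(fdet p x : ℝ)| < 3 * w * n := by
    intro x hx
    by_contra hcon
    push Not at hcon
    obtain ⟨k', y, h1, h2, h3, h4, h5⟩ := Rk_path k x hx
    refine hSP ⟨k', y, ?_, h3, h4, ?_, ?_⟩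
    · rw [← hD]
      exact h2
    · rw [h5]
      exact hcon
    · have : (k' : ℝ) ≤ k := by exact_mod_cast h1
      linarith
  set U : Finset Site := Λ.filter (fun x => |(gdot p x : ℝ)| ≤ G ∧
    (|(fdet p x : ℝ)| ≤ 2 * w * n ∨ x ∈ RR k)) with hU
  have hUm : ∀ x, x ∈ U ↔ x ∈ Λ ∧ |(gdot p x : ℝ)| ≤ G ∧
      (|(fdet p x : ℝ)| ≤ 2 * w * n ∨ x ∈ RR k) := fun x => by rw [hU, mem_filter]
  have hVU : V ⊆ U := by
    intro x hx
    rw [hVm] at hx
    rw [hUm, hΛm]
    refine ⟨⟨by linarith [hx.1], by linarith [hx.2]⟩, by linarith [hx.2], Or.inl ?_⟩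
    linarith [hx.1]
  have hcut := hZ R J hJ h V U Λ hVU (filter_subset _ _)
  rw [← hD] at hcut
  refine hcut.trans ?_
  set Bad : Finset Site := ((Fs D p K w).filter fun x => G - 2 * R * n < |(gdot p x : ℝ)| ∧
          |(gdot p x : ℝ)| ≤ G) ∪ ((Fs D p K w).filter fun x => x ∈ RR k ∧ x ∉ RR (k - 1))
    with hBad
  -- a cut bond starts in `Bad`
  have hkey : ∀ a ∈ U, ∀ b ∈ hull R U \ U, a ∈ (↑V ∪ ↑D ∪ (↑Λ)ᶜ : Set Site) →
      b ∈ (↑V ∪ ↑D ∪ (↑Λ)ᶜ : Set Site) → 0 < J (a - b) → a ∈ Bad := by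
    intro a ha b hb haD hbD hJab
    have hbU : b ∉ U := (mem_sdiff.1 hb).2
    have hab : a - b ∈ box R := by
      by_contra hcon
      rw [hJ.range _ hcon] at hJab
      exact lt_irrefl _ hJab
    obtain ⟨g1, g2⟩ := gdot_diff p a b hab
    obtain ⟨f1, f2⟩ := fdet_diff p a b hab
    rw [← hn'] at g1 g2 f1 f2
    obtain ⟨haΛ, hag, hak⟩ := (hUm a).1 ha
    have haf : |(fdet p a : ℝ)| < 3 * w * n := by
      rcases hak with h1 | h1
      · linarith
      · exact hfar a h1
    rw [hBad, mem_union, mem_filter, mem_filter]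
    unfold Fs
    rw [mem_filter, ← hn']
    by_cases hbg : |(gdot p b : ℝ)| ≤ G
    · right
      -- `b` lies in `Λ`
      have hbΛ : b ∈ Λ := by
        rw [hΛm]
        constructor
        · linarith
        · linarith
      have hbV : b ∉ V := fun h1 => hbU (hVU h1)
      have hbD' : b ∈ D := by
        rcases hbD with (h1 | h1) | h1
        · exact absurd (by exact_mod_cast h1) hbV
        · exact_mod_cast h1
        · exact absurd hbΛ (by simpa using h1)
      have hbf : 2 * w * n < |(fdet p b : ℝ)| := by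
        by_contra hcon
        push Not at hcon
        exact hbU ((hUm b).2 ⟨hbΛ, hbg, Or.inl hcon⟩)
      have hbk : b ∉ RR k := fun h1 => hbU ((hUm b).2 ⟨hbΛ, hbg, Or.inr h1⟩)
      have haV : a ∉ V := by
        intro h1
        rw [hVm] at h1
        linarith [h1.1]
      have haD' : a ∈ D := by
        rcases haD with (h1 | h1) | h1
        · exact absurd (by exact_mod_cast h1) haV
        · exact_mod_cast h1
        · exact absurd haΛ (by simpa using h1)
      have hbDp : b ∈ Dp D p (3 * K * w * n) := by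
        unfold Dp
        rw [mem_filter]
        exact ⟨hbD', hbg.trans hG2⟩
      have hJba : 0 < J (b - a) := by
        have := hJ.even (a - b)
        rw [neg_sub] at this
        rw [this]
        exact hJab
      have haf2 : 2 * w * n < |(fdet p a : ℝ)| := by
        by_contra hcon
        push Not at hcon
        have h0 : a ∈ RR 0 := by
          rw [hRR]
          unfold Rk Dp
          rw [mem_filter, mem_filter]
          exact ⟨⟨haD', hag.trans hG2⟩, hcon⟩
        exact hbk (Rk_mono (by omega : 0 + 1 ≤ k) (Rk_step hbDp h0 hJba))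
      have hak' : a ∈ RR k := by
        rcases hak with h1 | h1
        · exact absurd h1 (not_le.2 haf2)
        · exact h1
      refine ⟨⟨haD', haf.le, hag.trans hG2, Or.inl haf2⟩, hak', ?_⟩
      intro h1
      have h2 : b ∈ RR (k - 1 + 1) := Rk_step hbDp h1 hJba
      have h3 : k - 1 + 1 = k := by omega
      rw [h3] at h2
      exact hbk h2
    · left
      push Not at hbg
      have hga : G - 2 * R * n < |(gdot p a : ℝ)| := by linarith
      have haV : a ∉ V := by
        intro h1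
        rw [hVm] at h1
        linarith [h1.2]
      have haD' : a ∈ D := by
        rcases haD with (h1 | h1) | h1
        · exact absurd (by exact_mod_cast h1) haV
        · exact_mod_cast h1
        · exact absurd haΛ (by simpa using h1)
      refine ⟨⟨haD', haf.le, hag.trans hG2, Or.inr ?_⟩, hga, hag⟩
      linarith
  have hJt := Jt_nonneg R J hJ
  have hcap : cap R J (↑V ∪ ↑D ∪ (↑Λ)ᶜ) U ≤ Jt R J * (Bad.card : ℝ) := by
    unfold cap
    refine (sum_le_sum (g := fun a => if a ∈ Bad then Jt R J else 0) ?_).trans ?_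
    · intro a ha
      split_ifs with hB
      · refine le_trans (sum_le_sum fun b _ => ?_) (sum_J_le R J hJ a (hull R U \ U))
        split_ifs
        · exact le_refl _
        · exact hJ.nonneg _
      · refine le_of_eq (sum_eq_zero fun b hb => ?_)
        split_ifs with hc
        · rcases (hJ.nonneg (a - b)).eq_or_lt with h2 | h2
          · exact h2.symm
          · exact absurd (hkey a ha b hb hc.1 hc.2 h2) hB
        · rfl
    calc ∑ a ∈ U, (if a ∈ Bad then Jt R J else 0)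
        = ((U.filter fun a => a ∈ Bad).card : ℝ) * Jt R J := by
          rw [← sum_filter, sum_const, nsmul_eq_mul]
      _ ≤ (Bad.card : ℝ) * Jt R J := by
          refine mul_le_mul_of_nonneg_right ?_ hJt
          have : U.filter (fun a => a ∈ Bad) ⊆ Bad := fun a ha => (mem_filter.1 ha).2
          exact_mod_cast card_le_card this
      _ = Jt R J * (Bad.card : ℝ) := mul_comm _ _
  have hBc : (Bad.card : ℝ) ≤
      (((Fs D p K w).filter fun x => G - 2 * R * n < |(gdot p x : ℝ)| ∧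
          |(gdot p x : ℝ)| ≤ G).card : ℝ) +
        (((Fs D p K w).filter fun x => x ∈ RR k ∧ x ∉ RR (k - 1)).card : ℝ) := by
    rw [hBad, ← Nat.cast_add]
    exact Nat.cast_le.2 (card_union_le _ _)
  calc 4 * cap R J (↑V ∪ ↑D ∪ (↑Λ)ᶜ) U ≤ 4 * (Jt R J * (Bad.card : ℝ)) := by linarith
    _ ≤ 4 * (Jt R J * _) := by
        refine mul_le_mul_of_nonneg_left ?_ (by norm_num)
        exact mul_le_mul_of_nonneg_left hBc hJt
    _ = _ := by ring

/-! ### averaging -/

theorem pf_PCUT (hZ : Z_CUT) (hRCT : P_RCT) : P_CUT := by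
  classical
  intro R J hJ h p K w hp hK hw hSP
  have hn := nrm_pos hp
  have hR0 : (0 : ℝ) ≤ R := Nat.cast_nonneg R
  have hw0 : 0 < w := by linarith
  have hJt := Jt_nonneg R J hJ
  set D := Ds R J h (rect p K (4 * w) \ rect p K w) with hD
  set n := nrm p with hn'
  have hKw : w ≤ K * w := by nlinarith
  have hKw0 : 0 < K * w := by linarith
  -- the layer
  set N : ℕ := ⌈K * w⌉₊ - 1 with hN
  have hceil : K * w ≤ (⌈K * w⌉₊ : ℝ) := Nat.le_ceil _
  have hceil2 : (⌈K * w⌉₊ : ℝ) < K * w + 1 := Nat.ceil_lt_add_one hKw0.le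
  have hc2 : 2 ≤ ⌈K * w⌉₊ := by
    have : (2 : ℝ) ≤ (⌈K * w⌉₊ : ℝ) := by linarith
    exact_mod_cast this
  have hNr : (N : ℝ) = (⌈K * w⌉₊ : ℝ) - 1 := by
    rw [hN, Nat.cast_sub (by omega)]
    norm_num
  obtain ⟨k, hk1, hkN, hk⟩ := pigeon (Fs D p K w) N (by omega)
    (fun k x => x ∈ Rk J D p (3 * K * w * n) (2 * w * n) k ∧
      x ∉ Rk J D p (3 * K * w * n) (2 * w * n) (k - 1))
    (fun j j' x hjj h1 h2 => h2.2 (Rk_mono (by omega : j ≤ j' - 1) h1.1))
  have hkr : (k : ℝ) < K * w := by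
    have : (k : ℝ) ≤ N := by exact_mod_cast hkN
    linarith
  -- the band
  have hband : ∃ G : ℝ, 2 * K * w * n ≤ G ∧ G ≤ 3 * K * w * n ∧
      (((Fs D p K w).filter fun x => G - 2 * R * n < |(gdot p x : ℝ)| ∧
          |(gdot p x : ℝ)| ≤ G).card : ℝ) * (K * w) ≤ 4 * R * ((Fs D p K w).card : ℝ) := by
    rcases Nat.eq_zero_or_pos R with h0 | h0
    · refine ⟨2 * K * w * n, le_refl _, by nlinarith [mul_pos hKw0 hn], ?_⟩
      have : ((Fs D p K w).filter fun x => 2 * K * w * n - 2 * R * n < |(gdot p x : ℝ)| ∧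
          |(gdot p x : ℝ)| ≤ 2 * K * w * n) = ∅ := by
        rw [filter_eq_empty_iff]
        intro x _ hx
        rw [h0] at hx
        obtain ⟨hx1, hx2⟩ := hx
        simp only [Nat.cast_zero, mul_zero, zero_mul, sub_zero] at hx1
        linarith
      rw [this, h0]
      simp
    · have hR1 : (1 : ℝ) ≤ R := by exact_mod_cast h0
      set M : ℕ := ⌊K * w / (2 * R)⌋₊ with hM
      have h2R : (0 : ℝ) < 2 * R := by linarith
      have hfl : (M : ℝ) ≤ K * w / (2 * R) := Nat.floor_le (div_nonneg hKw0.le h2R.le)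
      have hfl2 : K * w / (2 * R) < M + 1 := Nat.lt_floor_add_one _
      have hM1 : 1 ≤ M := by
        rw [hM]
        refine Nat.le_floor ?_
        rw [Nat.cast_one, le_div_iff₀ h2R]
        linarith
      obtain ⟨j, hj1, hjM, hj⟩ := pigeon (Fs D p K w) M hM1
        (fun j x => (2 * K * w * n + 2 * R * n * j) - 2 * R * n < |(gdot p x : ℝ)| ∧
          |(gdot p x : ℝ)| ≤ (2 * K * w * n + 2 * R * n * j))
        (fun j j' x hjj h1 h2 => by
          have h3 : (j : ℝ) + 1 ≤ j' := by exact_mod_cast hjj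
          have h4 := h1.2
          have h5 := h2.1
          have h6 : 0 ≤ 2 * R * n * (j' - (j + 1)) := by
            refine mul_nonneg (by positivity) (by linarith)
          linarith)
      have hjM' : (j : ℝ) ≤ M := by exact_mod_cast hjM
      refine ⟨2 * K * w * n + 2 * R * n * j, ?_, ?_, ?_⟩
      · have : 0 ≤ 2 * R * n * (j : ℝ) := by positivity
        linarith
      · have h1 : 2 * R * (j : ℝ) ≤ K * w := by
          have h2 : (j : ℝ) ≤ K * w / (2 * R) := hjM'.trans hfl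
          rw [le_div_iff₀ h2R] at h2
          linarith
        have h3 := mul_le_mul_of_nonneg_right h1 hn.le
        linarith
      · have h1 : (M : ℝ) * (((Fs D p K w).filter fun x =>
            (2 * K * w * n + 2 * R * n * j) - 2 * R * n < |(gdot p x : ℝ)| ∧
            |(gdot p x : ℝ)| ≤ (2 * K * w * n + 2 * R * n * j)).card : ℝ) ≤
            ((Fs D p K w).card : ℝ) := by exact_mod_cast hj
        have h2 : K * w ≤ 4 * R * M := by
          have h3 : K * w < (M + 1) * (2 * R) := by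
            rwa [div_lt_iff₀ h2R] at hfl2
          have h4 : (2 : ℝ) * R ≤ 2 * R * M := by
            have : (1 : ℝ) ≤ M := by exact_mod_cast hM1
            nlinarith
          linarith
        calc _ ≤ (((Fs D p K w).filter fun x =>
            (2 * K * w * n + 2 * R * n * j) - 2 * R * n < |(gdot p x : ℝ)| ∧
            |(gdot p x : ℝ)| ≤ (2 * K * w * n + 2 * R * n * j)).card : ℝ) * (4 * R * M) :=
              mul_le_mul_of_nonneg_left h2 (Nat.cast_nonneg _)
          _ = 4 * R * (M * (((Fs D p K w).filter fun x =>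
            (2 * K * w * n + 2 * R * n * j) - 2 * R * n < |(gdot p x : ℝ)| ∧
            |(gdot p x : ℝ)| ≤ (2 * K * w * n + 2 * R * n * j)).card : ℝ)) := by ring
          _ ≤ 4 * R * ((Fs D p K w).card : ℝ) := mul_le_mul_of_nonneg_left h1 (by positivity)
  obtain ⟨G, hG1, hG2, hG⟩ := hband
  have hone := one_cut hZ hRCT R J hJ h p K w hp hK hw hSP D hD k hk1 hkr G hG1 hG2
  set c1 : ℝ := (((Fs D p K w).filter fun x => G - 2 * R * n < |(gdot p x : ℝ)| ∧
          |(gdot p x : ℝ)| ≤ G).card : ℝ) with hc1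
  set c2 : ℝ := (((Fs D p K w).filter fun x => x ∈ Rk J D p (3 * K * w * n) (2 * w * n) k ∧
      x ∉ Rk J D p (3 * K * w * n) (2 * w * n) (k - 1)).card : ℝ) with hc2'
  have hlay : c2 * (K * w) ≤ 2 * ((Fs D p K w).card : ℝ) := by
    have h1 : (N : ℝ) * c2 ≤ ((Fs D p K w).card : ℝ) := by
      rw [hc2']
      exact_mod_cast hk
    have h2 : K * w ≤ 2 * N := by
      rw [hNr]
      linarith
    have h3 : 0 ≤ c2 := Nat.cast_nonneg _
    calc c2 * (K * w) ≤ c2 * (2 * N) := mul_le_mul_of_nonneg_left h2 h3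
      _ = 2 * (N * c2) := by ring
      _ ≤ 2 * ((Fs D p K w).card : ℝ) := by linarith
  have hfin : ten R J h (rect p K w) (rect p K (4 * w)) ≤
      (16 * R + 8 : ℝ) * Jt R J / (K * w) * ((Fs D p K w).card : ℝ) := by
    refine hone.trans ?_
    have h1 : c1 + c2 ≤ (4 * R + 2) * ((Fs D p K w).card : ℝ) / (K * w) := by
      rw [le_div_iff₀ hKw0]
      linarith
    calc 4 * Jt R J * (c1 + c2) ≤ 4 * Jt R J * ((4 * R + 2) * ((Fs D p K w).card : ℝ) / (K * w)) :=
          mul_le_mul_of_nonneg_left h1 (by positivity)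
      _ = (16 * R + 8 : ℝ) * Jt R J / (K * w) * ((Fs D p K w).card : ℝ) := by ring
  have hFs : Fs D p K w = D.filter (fun x =>
      |(fdet p x : ℝ)| ≤ 3 * w * n ∧ |(gdot p x : ℝ)| ≤ 3 * K * w * n ∧
      (2 * w * n < |(fdet p x : ℝ)| ∨ 3 / 2 * K * w * n < |(gdot p x : ℝ)|)) := by
    unfold Fs
    exact filter_congr_decidable _ _ _
  rw [hFs] at hfin
  convert hfin using 4

end Pool.Agent.H79.RFZ
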