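import Pool.Agent.H98.RFZ.Targets2
import Pool.Agent.H98.RFC.Targets

/-!
# Row BMEA of rfz_modules: bad cells are local events (helper79)
-/

set_option autoImplicit false

noncomputable section

open MeasureTheory ProbabilityTheory
open Pool.Agent.H98.RFC Pool.Agent.H98.RFZ

namespace Pool.Agent.H79.RFZ

lemma eb_iff (z x : Site) (r : ℕ) : x ∈ eb z r ↔ x - z ∈ eb 0 r := by
  unfold eb bx
  simp only [Finset.mem_filter, Finset.mem_product, Finset.mem_Icc, Prod.fst_sub, Prod.snd_sub,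
    Prod.fst_zero, Prod.snd_zero, sub_zero]
  constructor
  · rintro ⟨⟨⟨h1, h2⟩, h3, h4⟩, h5⟩
    exact ⟨⟨⟨by omega, by omega⟩, by omega, by omega⟩, h5⟩
  · rintro ⟨⟨⟨h1, h2⟩, h3, h4⟩, h5⟩
    exact ⟨⟨⟨by omega, by omega⟩, by omega, by omega⟩, h5⟩

lemma eb_image (z : Site) (r : ℕ) : eb z r = (eb 0 r).image (fun x => z + x) := by
  ext x
  rw [Finset.mem_image, eb_iff]
  constructor
  · intro h
    exact ⟨x - z, h, by abel⟩
  · rintro ⟨a, ha, rfl⟩
    rwa [add_sub_cancel_left]

lemma Ds_iff (hTRA : Z_TRA) (R : ℕ) (J : Site → ℝ) (h : Site → ℝ)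
    (z x : Site) (r : ℕ) :
    x ∈ Ds R J h (eb z r) ↔ x - z ∈ Ds R J (fun x => h (z + x)) (eb 0 r) := by
  rw [eb_image, hTRA R J h (eb 0 r) z, Finset.mem_image]
  constructor
  · rintro ⟨a, ha, rfl⟩
    rwa [add_sub_cancel_left]
  · intro h
    exact ⟨x - z, h, by abel⟩

lemma bad_iff (hTRA : Z_TRA) (R : ℕ) (J : Site → ℝ) (h : Site → ℝ)
    (N : Site → ℝ) (v : ℕ) (z : Site) :
    BadN R J h N v z ↔ BadN R J (fun x => h (z + x)) N v 0 := by
  unfold BadN IsPath
  constructor
  · rintro ⟨k, x, ⟨h1, h2⟩, h3, h4, h5, h6⟩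
    refine ⟨k, fun i => x i - z, ⟨fun i hi => ?_, fun i hi => ?_⟩, fun i hi => ?_, ?_, ?_, ?_⟩
    · exact (Ds_iff hTRA R J h z (x i) _).1 (h1 i hi)
    · have e : (x (i + 1) - z) - (x i - z) = x (i + 1) - x i := by abel
      simp only
      rw [e]
      exact h2 i hi
    · exact (eb_iff z (x i) _).1 (h3 i hi)
    · exact (eb_iff z (x 0) _).1 h4
    · have e : (x k - z) - (x 0 - z) = x k - x 0 := by abel
      simp only
      rw [e]
      exact h5
    · have e : (x k - z) - (x 0 - z) = x k - x 0 := by abel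
      simp only
      rw [e]
      exact h6
  · rintro ⟨k, x, ⟨h1, h2⟩, h3, h4, h5, h6⟩
    refine ⟨k, fun i => z + x i, ⟨fun i hi => ?_, fun i hi => ?_⟩, fun i hi => ?_, ?_, ?_, ?_⟩
    · refine (Ds_iff hTRA R J h z (z + x i) _).2 ?_
      rw [add_sub_cancel_left]
      exact h1 i hi
    · have e : (z + x (i + 1)) - (z + x i) = x (i + 1) - x i := by abel
      simp only
      rw [e]
      exact h2 i hi
    · refine (eb_iff z (z + x i) _).2 ?_
      rw [add_sub_cancel_left]
      exact h3 i hi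
    · refine (eb_iff z (z + x 0) _).2 ?_
      rw [add_sub_cancel_left]
      exact h4
    · have e : (z + x k) - (z + x 0) = x k - x 0 := by abel
      simp only
      rw [e]
      exact h5
    · have e : (z + x k) - (z + x 0) = x k - x 0 := by abel
      simp only
      rw [e]
      exact h6

lemma Ds_sub (R : ℕ) (J h : Site → ℝ) (Λ : Finset Site) : Ds R J h Λ ⊆ Λ := by
  unfold Ds
  refine Finset.sdiff_subset.trans ?_
  unfold gp
  exact Finset.filter_subset _ _

lemma meas_scale (ε : ℝ) : Measurable (fun (η : Site → ℝ) (x : Site) => ε * η x) := by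
  refine measurable_pi_lambda _ fun x => ?_
  have h : Measurable (fun η : Site → ℝ => η x) := measurable_pi_apply x
  exact h.const_mul ε

/-- an event which depends only on the disagreement set -/
lemma meas_event (hMEA : Z_MEA) (R : ℕ) (J : Site → ℝ) (ε : ℝ) (Λ : Finset Site)
    (Φ : Finset Site → Prop) :
    MeasurableSet {η : Site → ℝ | Φ (Ds R J (fun x => ε * η x) Λ)} := by
  classical
  have he : {η : Site → ℝ | Φ (Ds R J (fun x => ε * η x) Λ)} =
      ⋃ S ∈ Λ.powerset.filter Φ, {η : Site → ℝ | Ds R J (fun x => ε * η x) Λ = S} := by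
    ext η
    simp only [Set.mem_ofPred_eq, Set.mem_iUnion, Finset.mem_filter, Finset.mem_powerset,
      exists_prop]
    constructor
    · intro h
      exact ⟨_, ⟨Ds_sub R J _ Λ, h⟩, rfl⟩
    · rintro ⟨S, ⟨-, h1⟩, h2⟩
      rw [h2]
      exact h1
  rw [he]
  refine Finset.measurableSet_biUnion _ fun S _ => ?_
  exact meas_scale ε (hMEA R J Λ S)

theorem pf_BMEA (hMEA : Z_MEA) (hLOC : Z_LOC) (hTRA : Z_TRA) (hTRG : T_TRG) : B_MEA := by
  intro R J hJ ε N v z
  have hm : ∀ z : Site, MeasurableSet {η : Site → ℝ | BadN R J (fun x => ε * η x) N v z} := by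
    intro z
    exact meas_event hMEA R J ε (eb z (10 * v)) (fun D => ∃ (k : ℕ) (x : ℕ → Site),
      IsPath J D k x ∧ (∀ i, i ≤ k → x i ∈ eb z (8 * v)) ∧ x 0 ∈ eb z (2 * v) ∧
      (v : ℤ) ^ 2 ≤ nsq (x k - x 0) ∧ (k : ℝ) < N (x k - x 0))
  refine ⟨hm z, ?_, ?_⟩
  · intro η η' heq hb
    unfold BadN at hb ⊢
    have h0 := hLOC R J (fun x => ε * η x) (fun x => ε * η' x) (eb z (10 * v))
      (fun x hx => congrArg (fun t => ε * t) (heq x hx))
    rw [← h0]
    exact hb
  · have hsh : Measurable (fun (η : Site → ℝ) (x : Site) => η (z + x)) :=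
      measurable_pi_lambda _ fun x => measurable_pi_apply (z + x)
    have hset : {η : Site → ℝ | BadN R J (fun x => ε * η x) N v z} =
        (fun (η : Site → ℝ) (x : Site) => η (z + x)) ⁻¹'
          {η : Site → ℝ | BadN R J (fun x => ε * η x) N v 0} :=
      Set.ext fun η => bad_iff hTRA R J (fun x => ε * η x) N v z
    have h1 : (gam.map (fun (η : Site → ℝ) (x : Site) => η (z + x)))
          {η : Site → ℝ | BadN R J (fun x => ε * η x) N v 0} =
        gam {η : Site → ℝ | BadN R J (fun x => ε * η x) N v z} := by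
      rw [Measure.map_apply hsh (hm 0), hset]
    rw [hTRG z] at h1
    unfold pB
    rw [h1]

end Pool.Agent.H79.RFZ
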